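import Mathlib

set_option autoImplicit false
open scoped Classical
open Filter Topology

namespace Pool.Agent.H.MP_d890fe_an

def S : Type := {s : ℝ → ℝ // ∃ x v, ∀ z, z ≠ x → s z = v}

instance : Semigroup S where
  mul s t := ⟨s.1 ∘ t.1, by
    obtain ⟨x, v, h⟩ := t.2
    exact ⟨x, s.1 v, fun z hz => by simp [h z hz]⟩⟩
  mul_assoc _ _ _ := rfl

theorem mul_val (s t : S) (z : ℝ) : (s * t).1 z = s.1 (t.1 z) := rfl

def c (u : ℝ) : S := ⟨fun _ => u, 0, u, fun _ _ => rfl⟩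

instance : Nonempty S := ⟨c 0⟩

theorem mul_c (s : S) (u : ℝ) : s * c u = c (s.1 u) := rfl

theorem two (x y u v : ℝ) (h : x ≠ y) : ∃ s : S, s.1 x = u ∧ s.1 y = v :=
  ⟨⟨fun z => if z = x then u else v, x, v, fun z hz => if_neg hz⟩, if_pos rfl, if_neg h.symm⟩

noncomputable def e (x : ℝ) : lp (fun _ : S => ℝ) ⊤ :=
  ⟨fun t => if t.1 0 = x then 1 else 0, memℓp_infty ⟨1, by
    rintro _ ⟨t, rfl⟩
    dsimp only
    split_ifs <;> simp⟩⟩

theorem e_apply (x : ℝ) (t : S) : e x t = if t.1 0 = x then 1 else 0 := rfl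

theorem summ (φ : lp (fun _ : S => ℝ) ⊤ →L[ℝ] ℝ) : Summable fun x => |φ (e x)| := by
  apply summable_of_sum_le (c := ‖φ‖) (fun x => abs_nonneg _)
  intro F
  have h1 : ∑ x ∈ F, |φ (e x)| = φ (∑ x ∈ F, (SignType.sign (φ (e x)) : ℝ) • e x) := by
    rw [map_sum]
    apply Finset.sum_congr rfl
    intro x _
    rw [map_smul, smul_eq_mul, sign_mul_self]
  have h2 : ‖∑ x ∈ F, (SignType.sign (φ (e x)) : ℝ) • e x‖ ≤ 1 := by
    apply lp.norm_le_of_forall_le zero_le_one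
    intro t
    rw [lp.coeFn_sum, Finset.sum_apply]
    simp only [lp.coeFn_smul, Pi.smul_apply, e_apply, smul_eq_mul, mul_ite, mul_one, mul_zero,
      Finset.sum_ite_eq]
    split_ifs
    · generalize SignType.sign (φ (e (t.1 0))) = a
      cases a <;> simp
    · simp
  rw [h1]
  calc _ ≤ ‖φ (∑ x ∈ F, (SignType.sign (φ (e x)) : ℝ) • e x)‖ := le_abs_self _
    _ ≤ ‖φ‖ * 1 := (φ.le_opNorm _).trans (mul_le_mul_of_nonneg_left h2 (norm_nonneg _))
    _ = _ := mul_one _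

theorem wnull : Tendsto (fun x => toWeakSpace ℝ (lp (fun _ : S => ℝ) ⊤) (e x)) cofinite (𝓝 0) := by
  have hi : IsInducing (fun (y : WeakSpace ℝ (lp (fun _ : S => ℝ) ⊤))
      (φ : lp (fun _ : S => ℝ) ⊤ →L[ℝ] ℝ) => φ y) := ⟨rfl⟩
  rw [hi.tendsto_nhds_iff, tendsto_pi_nhds]
  intro φ
  have := (tendsto_zero_iff_abs_tendsto_zero (fun x => φ (e x))).2 (summ φ).tendsto_cofinite_zero
  convert! this using 2
  exact map_zero φ

theorem wap : ∃ K : Set (WeakSpace ℝ (lp (fun _ : S => ℝ) ⊤)), IsCompact K ∧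
    ∀ g : lp (fun _ : S => ℝ) ⊤, (∃ s : S, ∀ t : S, g t = e 0 (s * t)) →
      toWeakSpace ℝ (lp (fun _ : S => ℝ) ⊤) g ∈ K := by
  have h1 := wnull.isCompact_insert_range_of_cofinite
  refine ⟨_ ∪ _, h1.union (h1.image (f := fun y => toWeakSpace ℝ _ 1 - y) (by fun_prop)), ?_⟩
  rintro g ⟨s, hs⟩
  obtain ⟨x, v, hx⟩ := s.2
  simp only [e_apply, mul_val] at hs
  by_cases h2 : v = 0 <;> by_cases h3 : s.1 x = 0
  · right
    refine ⟨0, Set.mem_insert _ _, ?_⟩
    have : g = 1 := by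
      ext t
      rw [hs, if_pos]
      · rfl
      · by_cases h4 : t.1 0 = x
        · rw [h4, h3]
        · rw [hx _ h4, h2]
    simp [this]
  · right
    refine ⟨_, Set.mem_insert_of_mem _ ⟨x, rfl⟩, ?_⟩
    have : g = 1 - e x := by
      ext t
      rw [hs]
      show _ = 1 - e x t
      rw [e_apply]
      by_cases h4 : t.1 0 = x
      · simp [h4, h3]
      · simp [h4, hx _ h4, h2]
    simp [this]
  · left
    refine Set.mem_insert_of_mem _ ⟨x, ?_⟩
    have : g = e x := by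
      ext t
      rw [hs, e_apply]
      by_cases h4 : t.1 0 = x
      · simp [h4, h3]
      · simp [h4, hx _ h4, h2]
    simp [this]
  · left
    have : g = 0 := by
      ext t
      rw [hs, if_neg]
      · rfl
      · by_cases h4 : t.1 0 = x
        · rwa [h4]
        · rwa [hx _ h4]
    simp [this]

end Pool.Agent.H.MP_d890fe_an
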